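import Pool.Agent.Helper40.IZ.Stmts

/-!
The isometries of a compact metric space are a compact topological group for the topology of
pointwise convergence (MP_7a8f48_an, module HMG).
-/

open Filter Topology

namespace Pool.Agent.Helper89.IZ

theorem iter_isometry {M : Type} [MetricSpace M] (f : M → M) (hf : Isometry f) (n : ℕ) (x y : M) :
    dist (f^[n] x) (f^[n] y) = dist x y := by
  induction n with
  | zero => rfl
  | succ n ih => rw [Function.iterate_succ_apply', Function.iterate_succ_apply', hf.dist_eq, ih]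

/-- an isometric self map of a compact metric space is onto -/
theorem surj_of_isometry {M : Type} [MetricSpace M] [CompactSpace M] (f : M → M)
    (hf : Isometry f) : Function.Surjective f := by
  intro m
  by_contra hm
  have hc : IsCompact (Set.range f) := isCompact_range hf.continuous
  have hne : (Set.range f).Nonempty := ⟨f m, m, rfl⟩
  have hmr : m ∉ Set.range f := hm
  have hδ : 0 < Metric.infDist m (Set.range f) :=
    (hc.isClosed.notMem_iff_infDist_pos hne).1 hmr
  obtain ⟨a, -, φ, hφ, ha⟩ := isCompact_univ.tendsto_subseq (x := fun n : ℕ => f^[n] m)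
    (fun n => Set.mem_univ _)
  have hcs : CauchySeq ((fun n : ℕ => f^[n] m) ∘ φ) := ha.cauchySeq
  obtain ⟨N, hN⟩ := Metric.cauchySeq_iff.1 hcs _ hδ
  have h1 := hN N le_rfl (N + 1) (Nat.le_succ N)
  have h2 : φ N < φ (N + 1) := hφ (Nat.lt_succ_self N)
  obtain ⟨d, hd⟩ : ∃ d, φ (N + 1) = φ N + (d + 1) := ⟨φ (N + 1) - φ N - 1, by omega⟩
  have h3 : dist (f^[φ N] m) (f^[φ (N + 1)] m) = dist m (f^[d + 1] m) := by
    rw [hd, Function.iterate_add_apply]
    exact iter_isometry f hf (φ N) _ _
  have h4 : Metric.infDist m (Set.range f) ≤ dist m (f^[d + 1] m) := by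
    apply Metric.infDist_le_dist_of_mem
    rw [Function.iterate_succ_apply']
    exact ⟨_, rfl⟩
  simp only [Function.comp] at h1
  rw [h3] at h1
  linarith

/-- HMG -/
theorem st_HMG : Pool.Agent.Helper40.IZ.ST_HMG := by
  intro M _ _
  let ι : (M ≃ᵢ M) → (M → M) := fun k m => k m
  have hinj : Function.Injective ι := fun k l h => IsometryEquiv.ext fun m => congrFun h m
  let t : TopologicalSpace (M ≃ᵢ M) := TopologicalSpace.induced ι inferInstance
  have hind : IsInducing ι := ⟨rfl⟩
  have hev : ∀ m : M, Continuous fun k : M ≃ᵢ M => k m := fun m =>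
    (continuous_apply m).comp hind.continuous
  have hrange : Set.range ι = {f : M → M | ∀ x y, dist (f x) (f y) = dist x y} := by
    ext f
    constructor
    · rintro ⟨k, rfl⟩ x y
      exact k.isometry.dist_eq x y
    · intro hf
      have hi : Isometry f := Isometry.of_dist_eq hf
      exact ⟨⟨Equiv.ofBijective f ⟨hi.injective, surj_of_isometry f hi⟩, hi⟩, rfl⟩
  have hcl : IsClosed (Set.range ι) := by
    rw [hrange]
    simp only [Set.ofPred_forall]
    refine isClosed_iInter fun x => isClosed_iInter fun y => ?_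
    exact isClosed_eq ((continuous_apply x).dist (continuous_apply y)) continuous_const
  have hemb : IsClosedEmbedding ι := ⟨⟨hind, hinj⟩, hcl⟩
  refine ⟨t, ?_, hemb.compactSpace, hemb.isEmbedding.t2Space, hev⟩
  refine { continuous_mul := ?_, continuous_inv := ?_ }
  · rw [hind.continuous_iff, continuous_pi_iff]
    intro m
    rw [continuous_iff_continuousAt]
    rintro ⟨k0, l0⟩
    have e1 : Tendsto (fun p : (M ≃ᵢ M) × (M ≃ᵢ M) => dist (p.2 m) (l0 m)
        + dist (p.1 (l0 m)) (k0 (l0 m))) (𝓝 (k0, l0)) (𝓝 0) := by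
      have c : Continuous fun p : (M ≃ᵢ M) × (M ≃ᵢ M) => dist (p.2 m) (l0 m)
        + dist (p.1 (l0 m)) (k0 (l0 m)) :=
        (((hev m).comp continuous_snd).dist continuous_const).add
          (((hev (l0 m)).comp continuous_fst).dist continuous_const)
      have := c.tendsto (k0, l0)
      simpa using this
    rw [ContinuousAt, tendsto_iff_dist_tendsto_zero]
    refine squeeze_zero (fun _ => dist_nonneg) (fun p => ?_) e1
    have e2 : dist (p.1 (p.2 m)) (p.1 (l0 m)) = dist (p.2 m) (l0 m) := p.1.isometry.dist_eq _ _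
    have e3 := dist_triangle (p.1 (p.2 m)) (p.1 (l0 m)) (k0 (l0 m))
    rw [e2] at e3
    exact e3
  · rw [hind.continuous_iff, continuous_pi_iff]
    intro m
    rw [continuous_iff_continuousAt]
    intro k0
    have e1 : Tendsto (fun k : M ≃ᵢ M => dist (k0 (k0⁻¹ m)) (k (k0⁻¹ m))) (𝓝 k0) (𝓝 0) := by
      have c : Continuous fun k : M ≃ᵢ M => dist (k0 (k0⁻¹ m)) (k (k0⁻¹ m)) :=
        continuous_const.dist (hev _)
      have := c.tendsto k0
      simpa using this
    rw [ContinuousAt, tendsto_iff_dist_tendsto_zero]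
    refine squeeze_zero (fun _ => dist_nonneg) (fun k => ?_) e1
    have e2 : dist (k (k⁻¹ m)) (k (k0⁻¹ m)) = dist (k⁻¹ m) (k0⁻¹ m) := k.isometry.dist_eq _ _
    have e3 : k (k⁻¹ m) = m := k.apply_symm_apply m
    have e4 : k0 (k0⁻¹ m) = m := k0.apply_symm_apply m
    have e5 : dist (ι k⁻¹ m) (ι k0⁻¹ m) = dist (k0 (k0⁻¹ m)) (k (k0⁻¹ m)) := by
      change dist (k⁻¹ m) (k0⁻¹ m) = _
      rw [← e2, e3, e4]
    exact e5.le

end Pool.Agent.Helper89.IZ
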