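import Pool.Agent.Helper40.IZ.Stmts

/-!
POL: polar decomposition of invertible operators (MP_7a8f48_an).
-/

open Filter Topology

namespace Pool.Agent.Helper40.IZ

open Pool.Agent.Helper16.AZ (T E Op mm)

/-- the unitary part of `H` -/
noncomputable def polH89 {d : ℕ} (H : Op d) : Op d := H * Ring.inverse (CFC.abs H)

theorem polH89_isUnit {d : ℕ} {H : Op d} (hH : IsUnit H) : IsUnit (CFC.abs H) := by
  have h1 : IsUnit (CFC.abs H ^ 2) := by
    rw [CFC.abs_sq]
    exact hH.star.mul hH
  exact (isUnit_pow_iff two_ne_zero).1 h1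

theorem polH89_unitary {d : ℕ} {H : Op d} (hH : IsUnit H) : polH89 H ∈ unitary (Op d) := by
  have hA := polH89_isUnit hH
  have hs : star (CFC.abs H) = CFC.abs H := (CFC.abs_nonneg H).isSelfAdjoint
  have hu : IsUnit (polH89 H) := hH.mul (by
    obtain ⟨u, hu⟩ := hA
    rw [← hu, Ring.inverse_unit]
    exact u⁻¹.isUnit)
  have h1 : star (polH89 H) * polH89 H = 1 := by
    have e1 : star (Ring.inverse (CFC.abs H)) = Ring.inverse (CFC.abs H) := by
      obtain ⟨u, hu⟩ := hA
      rw [← hu, Ring.inverse_unit]
      rw [← hu] at hs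
      have : star u = u := by
        ext1
        simpa using hs
      calc star ((u⁻¹ : (Op d)ˣ) : Op d) = ((star u)⁻¹ : (Op d)ˣ) := by
            rw [← star_inv]; rfl
        _ = _ := by rw [this]
    calc star (polH89 H) * polH89 H
        = Ring.inverse (CFC.abs H) * (star H * H) * Ring.inverse (CFC.abs H) := by
          unfold polH89
          rw [star_mul, e1]
          simp only [mul_assoc]
      _ = (Ring.inverse (CFC.abs H) * CFC.abs H) * (CFC.abs H * Ring.inverse (CFC.abs H)) := by
          rw [show star H * H = CFC.abs H * CFC.abs H from (CFC.abs_mul_abs H).symm]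
          simp only [mul_assoc]
      _ = 1 := by
          rw [Ring.inverse_mul_cancel _ hA, Ring.mul_inverse_cancel _ hA, mul_one]
  refine Unitary.mem_iff.mpr ⟨h1, ?_⟩
  obtain ⟨u, hu'⟩ := hu
  rw [← hu'] at h1 ⊢
  have h2 : star (u : Op d) = ((u⁻¹ : (Op d)ˣ) : Op d) := by
    calc star (u : Op d) = star (u : Op d) * ((u : Op d) * ((u⁻¹ : (Op d)ˣ) : Op d)) := by
          rw [Units.mul_inv, mul_one]
      _ = _ := by rw [← mul_assoc, h1, one_mul]
  rw [h2, Units.mul_inv]

/-- POL. -/
theorem st_POL : ST_POL := by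
  intro d
  refine ⟨polH89, fun H hH => ⟨polH89_unitary hH, ?_⟩, ?_⟩
  · have hA := polH89_isUnit hH
    obtain ⟨u, hu⟩ := hA
    have h1 : ContinuousAt (Ring.inverse : Op d → Op d) (CFC.abs H) := by
      rw [← hu]
      exact NormedRing.inverse_continuousAt u
    exact continuousAt_id.mul (h1.comp CFC.continuous_abs.continuousAt)
  · intro R hR H
    have h1 : CFC.abs (R * H) = CFC.abs H := by
      have e : star (R * H) * (R * H) = star H * H := by
        rw [star_mul, mul_assoc, ← mul_assoc (star R) R H, Unitary.star_mul_self_of_mem hR, one_mul]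
      unfold CFC.abs
      rw [e]
    unfold polH89
    rw [h1, mul_assoc]

end Pool.Agent.Helper40.IZ
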